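import Pool.Agent.Q33.Fam.Ratio
import Pool.Agent.Q33.Fam.Sign
import Pool.Agent.Q33.Fam.X20
import Pool.Agent.Q33.Fam.W20

set_option autoImplicit false

namespace Pool.Agent.Results.MP_f65ae4_nt.Twenty

open Finset Pool.Agent.Q33.Fam

lemma ft0 (N : ℕ) : W20.ft 0 N = (((20 : ℤ) * N + 3) * w4 N : ℤ) := by
  unfold W20.ft
  push_cast
  rw [w4_fact]
  simp only [mul_zero, zero_add, pow_zero]
  have h1 : (N.factorial : ℚ) ≠ 0 := by exact_mod_cast N.factorial_ne_zero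
  have h2 : ((2 * N).factorial : ℚ) ≠ 0 := by exact_mod_cast Nat.factorial_ne_zero _
  simp only [Nat.factorial_zero, Nat.cast_one]
  field_simp
  ring

lemma gtQ (k M : ℕ) : Q 2 (((k + M + 1 : ℕ) : ℤ) * cb (k + M + 1)) (W20.gt k M) := by
  obtain ⟨e, he⟩ := X20 k M
  apply Q_ratio ((-4) ^ (k + 1) * 128) _ _ e (by exact_mod_cast he)
  unfold W20.gt
  push_cast
  rw [cb_fact]
  simp only [fp_cons, fp_nil]
  have e1 : 2 * k + 2 * M + 2 = 2 * (k + M + 1) := by ring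
  rw [e1, Nat.factorial_succ (k + M)]
  push_cast
  have h2 : ((2 * (k + M + 1)).factorial : ℚ) ≠ 0 := by exact_mod_cast Nat.factorial_ne_zero _
  have h3 : (M.factorial : ℚ) ≠ 0 := by exact_mod_cast Nat.factorial_ne_zero _
  have h4 : ((k + M).factorial : ℚ) ≠ 0 := by exact_mod_cast Nat.factorial_ne_zero _
  have h5 : ((2 * k + 2).factorial : ℚ) ≠ 0 := by exact_mod_cast Nat.factorial_ne_zero _
  have h6 : ((3 * k + 2 * M + 2).factorial : ℚ) ≠ 0 := by exact_mod_cast Nat.factorial_ne_zero _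
  have h7 : ((k : ℚ) + M + 1) ≠ 0 := by positivity
  field_simp

lemma hQ (n : ℕ) : Q 2 ((n : ℤ) * cb n) (((-1024 : ℤ) : ℚ) * (S 20 3 (-1024) w4 n : ℤ)) := by
  rw [← tele1 (-1024) 20 3 w4 W20.ft W20.gt ?_ ?_ ft0 n]
  · apply Q_sum
    intro k hk
    have e : k + (n - 1 - k) + 1 = n := by omega
    have := gtQ k (n - 1 - k)
    rw [e] at this
    exact this
  · intro k M
    have := W20.Wgen k M
    push_cast
    exact this
  · intro k
    have := W20.Wb0 k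
    push_cast
    exact this

lemma dvd (n : ℕ) (hn : 2 ≤ n) : 2 * D n ∣ S 20 3 (-1024) w4 n := by
  obtain ⟨i, h1⟩ := main_part 20 3 (-1024) w4 2 (by norm_num) (fun n _ => hQ n) ⟨10, by norm_num⟩ (by norm_num)
    w4_dvd n (by omega)
  obtain ⟨V, hV⟩ := V4
  obtain ⟨q, hq, h2⟩ := two_part 20 3 (-512) w4 2 V 2 (by norm_num) (fun n h => hV n (by omega))
    ⟨1, by norm_num, by
      have e : (2 : ℤ) * (-512) = -1024 := by norm_num
      rw [e]
      unfold D S cb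
      simp [sum_range_succ, Nat.choose, w4_zero, w4_one]⟩ n hn
  have e : (2 : ℤ) * (-512) = -1024 := by norm_num
  rw [e] at h2
  apply combine (u := 2 ^ (i + 1)) (v := q) (coprime_two_pow q hq (i + 1)) _ h2
  rw [pow_succ, mul_comm (2 ^ i), mul_assoc]
  exact mul_dvd_mul_left 2 h1

lemma pos (n : ℕ) : 0 < (-1) ^ n * S 20 3 (-1024) w4 (n + 1) := by
  have := sign_alt 20 3 1024 w4 (by norm_num)
    (fun k => mul_pos (by positivity) (w4_pos k)) ?_ n
  · exact this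
  · intro k
    have h1 := w4_step k
    have h2 := w4_pos k
    rcases Nat.eq_zero_or_pos k with h | h
    · subst h
      norm_num [w4_zero, w4_one]
    · have h3 : (1 : ℤ) ≤ k := by exact_mod_cast h
      push_cast
      have h4 : (20 * ((k : ℤ) + 1) + 3) * w4 (k + 1) ≤ (20 * ((k : ℤ) + 1) + 3) * (256 * w4 k) :=
        mul_le_mul_of_nonneg_left h1 (by positivity)
      nlinarith [mul_pos (show (0 : ℤ) < 60 * k - 11 by linarith) h2]

/-- For every `n ≥ 2` the number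
`(-1)^(n-1) ∑_{k<n} (20k+3) (4k)!/(k!)^4 (-1024)^(n-1-k) / (2n (2n+1) C(2n,n))` is a positive integer. -/
theorem result : ∀ n : ℕ, 2 ≤ n → ∃ z : ℕ, 0 < z ∧
    (-1 : ℚ) ^ (n - 1) *
      ((∑ k ∈ range n, (20 * (k : ℚ) + 3) * (((4 * k).factorial : ℚ) / (k.factorial : ℚ) ^ 4) * (-1024) ^ (n - 1 - k)) /
        (2 * n * (2 * n + 1) * ((2 * n).choose n : ℚ))) = z := by
  intro n hn
  obtain ⟨t, ht⟩ := dvd n hn
  obtain ⟨M, rfl⟩ : ∃ M, n = M + 1 := ⟨n - 1, by omega⟩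
  have hp := pos M
  rw [ht] at hp
  have hD := D_pos (M + 1) (by omega)
  have hz : 0 < (-1) ^ M * t := by
    by_contra hc
    push Not at hc
    have : (-1) ^ M * (2 * D (M + 1) * t) = (2 * D (M + 1)) * ((-1) ^ M * t) := by ring
    rw [this] at hp
    nlinarith
  refine ⟨((-1) ^ M * t).toNat, by omega, ?_⟩
  have e1 : ((((-1) ^ M * t).toNat : ℕ) : ℚ) = (((-1) ^ M * t : ℤ) : ℚ) := by
    have : ((((-1) ^ M * t).toNat : ℕ) : ℤ) = (-1) ^ M * t := Int.toNat_of_nonneg hz.le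
    exact_mod_cast this
  rw [e1]
  have e2 : (∑ k ∈ range (M + 1), (20 * (k : ℚ) + 3) * (((4 * k).factorial : ℚ) / (k.factorial : ℚ) ^ 4) *
      (-1024) ^ (M + 1 - 1 - k)) = ((S 20 3 (-1024) w4 (M + 1) : ℤ) : ℚ) := by
    unfold S
    push_cast
    apply sum_congr rfl
    intro k _
    rw [w4_fact]
  have e3 : (2 * ((M + 1 : ℕ) : ℚ) * (2 * ((M + 1 : ℕ) : ℚ) + 1) * ((2 * (M + 1)).choose (M + 1) : ℚ)) =
      ((2 * D (M + 1) : ℤ) : ℚ) := by
    unfold D cb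
    push_cast
    ring
  rw [e2, e3, ht]
  have h0 : ((2 * D (M + 1) : ℤ) : ℚ) ≠ 0 := by
    have : (2 * D (M + 1)) ≠ 0 := by omega
    exact_mod_cast this
  push_cast at h0 ⊢
  rw [mul_div_cancel_left₀ _ h0]

end Pool.Agent.Results.MP_f65ae4_nt.Twenty
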